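import Pool.Agent.H917Z.HIF.NotRE
import Pool.Agent.H917Z.HIF.NCR

set_option autoImplicit false

open Computability Pool.Agent.H917Z.HIF.Defs

/-- There is a real `A` such that every real computable from `A` (in particular every real of the
degree of `A`) is NCR, and `A` is not computable from any r.e. set. -/
theorem Pool.Agent.Results.MP_2f7dfd_lc.NotBelowRE.result :
    ∃ A : ℕ → Bool, (∀ B : ℕ → Bool, orc B ≤ᵀ orc A → NCR B) ∧
      ∀ W : ℕ → Bool, REPred (fun n => W n = true) → ¬ orc A ≤ᵀ orc W := by
  obtain ⟨L, A, h⟩ := Pool.Agent.H917Z.HIF.exists_pt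
  exact ⟨A, fun B hB => h.ncr hB, fun W hW => h.not_le hW⟩
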